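import Pool.Agent.U190.SN.Pl

/-!
# Curves without sections over all extensions of a field with a rational place

Let `k` be a field of characteristic zero, for instance a number field or any field finitely generated
over `ℚ`, let `E = k[T]/(G)` be a field extension of `k` of degree `ℓ`, an odd prime number, and let
`a ∈ k^*` be an element which is not a norm from `E`.  Let `K` be any extension field of `k` with a place
which is rational over `k` (and trivial on `k`), for instance `k` itself, the function field of any
variety over `k` with a smooth `k`-rational point, or a subfield of an iterated field of Laurent series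
over `k`; if `k` is finitely generated over `ℚ`, then there are such fields `K`, finitely generated over
`ℚ`, of every transcendence degree over `k`.  We consider the plane curves over `K`

  `X : N_{E ⊗ K/K}(Λ) = a Q^ℓ`,

where `Λ` is a form in three variables of any degree `e` with coefficients in `E ⊗ K`, and `Q` is a form
over `K` (of degree `e`) which does not vanish at the common zeros of two different conjugates of `Λ`.
The curves need not be defined over `k`.

**Theorem.**  For ALL these fields `K`, for ALL finite extensions `L` of `K` of degree prime to `ℓ`, and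
for ALL these curves `X`:

* `X` has no point over `L`,
* the fundamental group of every smooth curve `U` over `L`, affine or projective, with a nonconstant map
  to `X` has no sections over `G_L`,
* this is so already at a finite level: let `F` be the function field of `U` and let `F'` be the field
  generated over `L̄ F` by the `ℓ`-th roots of the quotients `Λ_θ/Λ_θ'` of the conjugates of `Λ`.  Then
  `Gal(F'/F) → G_L` has no section, and the same holds for every extension of `F` that contains `F'`.

Conversely, if `a` is a norm from `E`, then one of these curves, over `K = k`, has a point over `k`.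

So for the hyperbolic curves `U` over the fields `L` (finitely generated over `ℚ` if `K` is), which
include affine and projective curves of arbitrary genus and non-isotrivial families of curves, the
question holds: a section `s` comes from a rational point if and only if `F(s)` is trivial, as there are
neither rational points nor sections, not even cuspidal sections.

The fundamental group is described through valuations.  Let `U` be a smooth geometrically connected
curve over `L` with function field `F`, let `Ω` be an algebraic closure of `F`, and let `F_U` be the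
maximal extension of `F` inside `Ω` which is unramified over the closed points of `U`, that is, over
their local rings, which are valuation rings of `F`.  Then `π₁(U) = Gal(F_U/F)`, and the map
`π₁(U) → G_L` is the restriction of automorphisms to the algebraic closure of `L` in `Ω`.

Proof.  (1) If `a` is a norm from `E ⊗ K`, say `a = N(P(θ))` with a polynomial `P` over `K` of degree
less than `ℓ`, then we compare the resultants of `G` and `P`.  Let `O` be the valuation ring with residue
field `k`, and `c P` a primitive polynomial over `O`, `c ∈ K^*`.  As `G` is irreducible over the residue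
field, the resultant `c^ℓ a` of `G` and `c P` is a unit, and so `c` is a unit, and the reduction of `P`
shows that `a` is a norm from `E`.  Also `G` stays irreducible over `K`, by reduction.  (2) The norm
principle of `U190.SN` over the field `K` (see `MP_c385f6_ag.NormForms`): for a section `s` over `L`, the
form `Λ` is, on a subgroup `Γ` of finite index prime to `ℓ`, up to a constant `b` from `E`, a function
whose norm is an `ℓ`-th power of a function fixed by `s(Γ)`; so `a` is a norm from `E ⊗ K`.
-/

set_option autoImplicit false

open Polynomial

namespace Pool.Agent.Results.MP_3dd09b_ag.NormFormsOverExtensions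

universe u v w

section definitions

variable (k : Type u) (F : Type v) (Ω : Type w) [Field k] [Field F] [Field Ω] [Algebra k F]
  [Algebra F Ω] [Algebra k Ω]

/-- The inertia group of the valuation ring `W` of `Ω`, as a subgroup of `Gal(Ω/F)`: the
automorphisms of `Ω` over `F` that map `W` onto itself and act as the identity on its residue
field. -/
noncomputable def inertia (W : ValuationSubring Ω) : Subgroup (Ω ≃ₐ[F] Ω) :=
  (W.inertiaSubgroup F).map (W.decompositionSubgroup F).subtype

/-- `F_U`, for a set `U` of valuation rings of `F`: the elements of `Ω` fixed by the inertia groups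
of all valuation rings `W` of `Ω` with `W ∩ F ∈ U`.  If `Ω` is an algebraic closure of a field `F`
of characteristic zero, this is the maximal extension of `F` in `Ω` unramified over `U`. -/
noncomputable def unramified (U : Set (ValuationSubring F)) : IntermediateField F Ω :=
  ⨅ W : {W : ValuationSubring Ω // W.comap (algebraMap F Ω) ∈ U},
    IntermediateField.fixedField (inertia F Ω W.1)

/-- The map `τ : M → M` acts as `σ : K → K` on the elements that the fields `K` and `M` have in
common when they are regarded as subfields of `Ω` through `i` and `j`. -/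
def ActsAs {K M Ω : Type*} [Field K] [Field M] [Field Ω] (i : K →+* Ω) (j : M →+* Ω) (σ : K → K)
    (τ : M → M) : Prop :=
  ∀ c z, j z = i c → j (τ z) = i (σ c)

/-- Let `k ⊆ K ⊆ Ω` and `F ⊆ M ⊆ Ω` be fields.  A splitting of `Gal(M/F) → Gal(K/k)`: a continuous
homomorphism `s` from `Gal(K/k)` to `Gal(M/F)` such that `s(σ)` acts as `σ` on the elements of
`K ∩ M`. -/
structure Splitting (K M : Type*) [Field K] [Field M] [Algebra k K] [Algebra F M] [Algebra K Ω]
    [Algebra M Ω] where
  /-- the homomorphism `Gal(K/k) → Gal(M/F)` -/
  toHom : (K ≃ₐ[k] K) →* (M ≃ₐ[F] M)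
  cont : Continuous toHom
  compat : ∀ σ : K ≃ₐ[k] K, ActsAs (algebraMap K Ω) (algebraMap M Ω) σ (toHom σ)

/-- The sections of `Gal(M/F) → G_k`, where `M` is a field between `F` and `Ω`: the continuous
homomorphisms `s` from `G_k = Gal(k̄/k)` to `Gal(M/F)`, where `k̄` is the algebraic closure of `k` in
`Ω`, such that `s(σ)` acts as `σ` on the elements of `k̄ ∩ M`.  For `M = F_U` these are the sections of
`π₁(U) → G_k`. -/
def GaloisSection (M : IntermediateField F Ω) : Type w :=
  Splitting k F Ω (algebraicClosure k Ω) M

end definitions

section curve

variable {K : Type u} [Field K]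

/-- The value at the vector `x` of the conjugate `Λ_θ` of the form `Λ`: `Λ` has coefficients in
`K[T]`, or in `E = K[T]/(G)`, and `T` is replaced by the root `θ` of `G`. -/
noncomputable def value {Ω : Type*} [Field Ω] [Algebra K Ω] (Λ : MvPolynomial (Fin 3) K[X]) (θ : Ω)
    (x : Fin 3 → Ω) : Ω :=
  MvPolynomial.eval₂ (Polynomial.eval₂RingHom (algebraMap K Ω) θ) x Λ

/-- The equation `N_{E/K}(Λ) = a Qⁿ`, `E = K[T]/(G)`, at a vector with entries in an algebraically
closed field `Ω` over `K`: the norm is the product of the values of the conjugates `Λ_θ`, `θ` the roots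
of `G` in `Ω`. -/
def OnCurve {Ω : Type*} [Field Ω] [Algebra K Ω] (n : ℕ) (G : K[X]) (Λ : MvPolynomial (Fin 3) K[X])
    (a : K) (Q : MvPolynomial (Fin 3) K) (x : Fin 3 → Ω) : Prop :=
  ((G.map (algebraMap K Ω)).roots.map fun θ => value Λ θ x).prod =
    algebraMap K Ω a * MvPolynomial.aeval x Q ^ n

/-- `a` is a norm from `E = K[T]/(G)`: for the class of some polynomial `P`, the norm, which is the
product of the `P(θ)` over the roots `θ` of `G`, is `a`. -/
def IsNorm (G : K[X]) (a : K) : Prop :=
  ∃ P : K[X], ((G.map (algebraMap K (AlgebraicClosure K))).roots.map fun θ => aeval θ P).prod =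
    algebraMap K (AlgebraicClosure K) a

/-- The form `Q` does not vanish at the common zeros in the projective plane of two conjugates
`Λ_θ`, `Λ_θ'`, `θ ≠ θ'`. -/
def Transversal (G : K[X]) (Λ : MvPolynomial (Fin 3) K[X]) (Q : MvPolynomial (Fin 3) K) : Prop :=
  ∀ θ θ' : AlgebraicClosure K, aeval θ G = 0 → aeval θ' G = 0 → θ ≠ θ' →
    ∀ x : Fin 3 → AlgebraicClosure K, x ≠ 0 → value Λ θ x = 0 → value Λ θ' x = 0 →
      MvPolynomial.aeval x Q ≠ 0

/-- The curve has no point over `L`. -/
def NoPoint (L : Type u) [Field L] [Algebra K L] (n : ℕ) (G : K[X])
    (Λ : MvPolynomial (Fin 3) K[X]) (a : K) (Q : MvPolynomial (Fin 3) K) : Prop :=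
  ∀ x : Fin 3 → L, x ≠ 0 → ¬ OnCurve n G Λ a Q fun j => algebraMap L (AlgebraicClosure L) (x j)

/-- The field `M` contains the algebraic closure `L̄` of `L` in `Ω` and the `n`-th roots of all
quotients `Λ_θ(x)/Λ_θ'(x)`.  (The smallest such field is a finite abelian extension of exponent `n` of
`L̄ F`.) -/
def ContainsRoots (L : Type u) {F : Type v} {Ω : Type w} [Field L] [Field F] [Field Ω]
    [Algebra K Ω] [Algebra L Ω] [Algebra F Ω] (n : ℕ) (G : K[X]) (Λ : MvPolynomial (Fin 3) K[X])
    (x : Fin 3 → Ω) (M : IntermediateField F Ω) : Prop :=
  (∀ c ∈ algebraicClosure L Ω, c ∈ M) ∧ ∀ θ θ' β : Ω, aeval θ G = 0 → aeval θ' G = 0 →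
    value Λ θ' x ≠ 0 → β ^ n * value Λ θ' x = value Λ θ x → β ∈ M

/-- Let `F` be any field over `L` that contains a point `x` of the curve, for instance the function
field of the curve over `L`, or of a curve over `L` that dominates it, and let `Ω` be an algebraic
closure of `F`.  Then `Gal(M/F) → G_L` has no section if `M` is a field between `F` and `Ω` that
contains `L̄` and the `n`-th roots of the quotients `Λ_θ(x)/Λ_θ'(x)`; and for every set `U` of valuation
rings of `F` over `L` the field `F_U` contains these elements, and there is no section of
`π₁(U) → G_L`. -/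
def NoSection (L : Type u) [Field L] [Algebra K L] (n : ℕ) (G : K[X])
    (Λ : MvPolynomial (Fin 3) K[X]) (a : K) (Q : MvPolynomial (Fin 3) K) : Prop :=
  ∀ (F : Type v) (Ω : Type w) [Field F] [Field Ω] [Algebra L F] [Algebra F Ω] [Algebra L Ω]
    [Algebra K Ω] [IsScalarTower L F Ω] [IsScalarTower K L Ω] [IsAlgClosure F Ω] (x : Fin 3 → F),
    x ≠ 0 → OnCurve n G Λ a Q (fun j => algebraMap F Ω (x j)) →
      (∀ M : IntermediateField F Ω,
        ContainsRoots L n G Λ (fun j => algebraMap F Ω (x j)) M →
          IsEmpty (GaloisSection L F Ω M)) ∧
      ∀ U : Set (ValuationSubring F), (∀ O ∈ U, ∀ c : L, algebraMap L F c ∈ O) →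
        ContainsRoots L n G Λ (fun j => algebraMap F Ω (x j)) (unramified F Ω U) ∧
          IsEmpty (GaloisSection L F Ω (unramified F Ω U))

/-- All the assertions for the algebra `E = K[T]/(G)`, the exponent `n` and the number `a`: for all
finite extensions `L` of `K` of degree prime to `n`, all forms `Λ` over `E` of a degree `e`, and all
forms `Q` over `K` of the degree `q = e [E : K]/n` that do not vanish at the common zeros of two
conjugates of `Λ`, the curve `N_{E/K}(Λ) = a Qⁿ` has no point and no section over `L`. -/
def NothingOver (n : ℕ) (G : K[X]) (a : K) : Prop :=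
  ∀ (L : Type u) [Field L] [Algebra K L] [FiniteDimensional K L],
    Nat.Coprime n (Module.finrank K L) →
      ∀ (e q : ℕ) (Λ : MvPolynomial (Fin 3) K[X]) (Q : MvPolynomial (Fin 3) K),
        Λ.IsHomogeneous e → Q.IsHomogeneous q → G.natDegree * e = n * q → Transversal G Λ Q →
          NoPoint L n G Λ a Q ∧ NoSection.{u, v, w} L n G Λ a Q

/-- The field `K` over `k` has a place which is rational over `k`: a valuation ring `O` that contains
`k` and whose residue field is `k`, that is, each element of `O` is the sum of an element of `k` and an
element of the maximal ideal of `O`. -/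
def HasRationalPlace (k K : Type*) [Field k] [Field K] [Algebra k K] : Prop :=
  ∃ O : ValuationSubring K, (∀ c : k, algebraMap k K c ∈ O) ∧
    ∀ x ∈ O, ∃ c : k, x - algebraMap k K c ∈ O.nonunits

end curve

/-- Let `k` be a field of characteristic zero, `ℓ` an odd prime number, and `E = k[T]/(G)` an extension
field of `k` of degree `ℓ`, and `a ∈ k^*`.  Then `a` is not a norm from `E` if and only if for all fields
`K` over `k` with a `k`-rational place, all forms `Λ` over `E ⊗ K` and `Q` over `K` such that `Q` does not
vanish at the common zeros of two conjugates of `Λ`, and all finite extensions `L` of `K` of degree prime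
to `ℓ`, the plane curve `N(Λ) = a Q^ℓ` has no point over `L`, and the fundamental groups of all smooth
curves over `L` that dominate it have no sections, even at the finite level given by the `ℓ`-th roots of
the quotients of the conjugates of `Λ`. -/
theorem result (k : Type u) [Field k] [CharZero k] (ℓ : ℕ) (hℓ : ℓ.Prime) (hodd : Odd ℓ) (G : k[X])
    (hm : G.Monic) (hG : Irreducible G) (hd : G.natDegree = ℓ) (a : k) (ha : a ≠ 0) :
    (∀ (K : Type u) [Field K] [Algebra k K], HasRationalPlace k K →
      NothingOver.{u, v, w} ℓ (G.map (algebraMap k K)) (algebraMap k K a)) ↔ ¬ IsNorm G a := by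
  constructor
  · intro h hnm
    obtain ⟨Λ, Q, hΛ, hQ, hT, x, hx, hon⟩ :=
      Pool.Agent.U190.SN.converse (G := G) (ℓ := ℓ) hℓ.ne_zero a hnm
    have h1 := h k ⟨⊤, fun c => trivial, fun x _ => ⟨x, by
      rw [Algebra.algebraMap_self, RingHom.id_apply, sub_self, ValuationSubring.mem_nonunits_iff,
        map_zero]
      exact zero_lt_one⟩⟩
    rw [Algebra.algebraMap_self, Polynomial.map_id, RingHom.id_apply] at h1
    refine (h1 k ?_ ℓ G.natDegree Λ Q hΛ hQ (mul_comm _ _) hT).1 x hx hon
    rw [Module.finrank_self]
    exact Nat.coprime_one_right ℓ
  · intro hnot K _ _ hpl L _ _ _ hL e q Λ Q hΛ hQ hdeg hT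
    obtain ⟨O, hk, hres⟩ := hpl
    have : CharZero K := charZero_of_injective_algebraMap (algebraMap k K).injective
    have hirr := Pool.Agent.U190.SN.irreducible_place O hk hres G hm hG
    have hnd : (G.map (algebraMap k K)).natDegree = ℓ := by rw [natDegree_map, hd]
    have hmK : (G.map (algebraMap k K)).Monic := hm.map _
    have hsK : (G.map (algebraMap k K)).Separable := hirr.separable
    have haK : algebraMap k K a ≠ 0 := by simpa using ha
    have hnotK : ¬ IsNorm (G.map (algebraMap k K)) (algebraMap k K a) := by
      rintro ⟨P, hP⟩
      apply hnot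
      have e1 : ((G.map (algebraMap k K)).map (algebraMap K (AlgebraicClosure K))).roots.map
          (fun θ => aeval θ P) =
          ((G.map (algebraMap k K)).map (algebraMap K (AlgebraicClosure K))).roots.map
          (fun θ => aeval θ (P %ₘ G.map (algebraMap k K))) := by
        refine Multiset.map_congr rfl fun θ hθ => ?_
        have h0 : aeval θ (G.map (algebraMap k K)) = 0 := by
          have := (mem_roots'.1 hθ).2
          rwa [IsRoot.def, eval_map_algebraMap] at this
        conv_lhs => rw [← modByMonic_add_div P (G.map (algebraMap k K))]
        rw [map_add, map_mul, h0, zero_mul, add_zero]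
      rw [e1, Pool.Agent.U190.SN.prod_eq_resultant _ hmK _ _ le_rfl, natDegree_map] at hP
      have h2 := (algebraMap K (AlgebraicClosure K)).injective hP
      have hdeg1 : (P %ₘ G.map (algebraMap k K)).natDegree < G.natDegree := by
        have := natDegree_modByMonic_lt P hmK (by
          intro h1
          rw [h1, natDegree_one] at hnd
          exact hℓ.ne_zero hnd.symm)
        rwa [natDegree_map] at this
      obtain ⟨P', hP', h3⟩ := Pool.Agent.U190.SN.norm_place O hk hres G hm hG a ha _ hdeg1 h2
      refine ⟨P', ?_⟩
      rw [Pool.Agent.U190.SN.prod_eq_resultant _ hm _ _ hP', h3]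
    obtain ⟨g1, g2⟩ := Pool.Agent.U190.SN.both.{u, v, w, u} (L := L) hℓ.one_lt hodd hL hsK
      (by rw [hnd]; exact hℓ.ne_zero)
      (fun p hp hpd => by
        rw [← hnd]
        exact natDegree_eq_of_degree_eq (degree_eq_degree_of_associated
          ((hp.dvd_irreducible_iff_associated hirr).1 hpd)))
      (Or.inl hℓ) _ haK hnotK Λ e hΛ Q q hQ hdeg hT
    refine ⟨fun x hx hon => g1 x hx hon, ?_⟩
    intro F Ω _ _ _ _ _ _ _ _ _ x hx hon
    obtain ⟨k1, k2⟩ := g2 F Ω x hx hon
    have k3 : ∀ M : IntermediateField F Ω,
        ContainsRoots L ℓ (G.map (algebraMap k K)) Λ (fun j => algebraMap F Ω (x j)) M →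
          IsEmpty (GaloisSection L F Ω M) :=
      fun M hM => ⟨fun s => k1 M hM s.toHom s.cont s.compat⟩
    exact ⟨k3, fun U hU => ⟨k2 U hU, k3 _ (k2 U hU)⟩⟩

end Pool.Agent.Results.MP_3dd09b_ag.NormFormsOverExtensions
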